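import Mathlib

set_option autoImplicit false

namespace Pool.Agent.Results.MP_6a97ae_co.Order

open Finset

/-- the number of pairs `x, y` of elements of `A` with `y - x = s` -/
def nu (A : Finset ℕ) (s : ℕ) : ℕ := ((A ×ˢ A).filter (fun z => z.2 = z.1 + s)).card

/-- `A` is admissible -/
def Adm (A : Finset ℕ) : Prop := ∀ s, 0 < s → nu A s ≤ 2 * s

open Classical in
/-- the largest size of an admissible subset of `{1, …, n}` -/
noncomputable def R (n : ℕ) : ℕ := (((Icc 1 n).powerset).filter Adm).sup card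

lemma le_R {n : ℕ} {A : Finset ℕ} (h : A ⊆ Icc 1 n) (hA : Adm A) : A.card ≤ R n := by
  classical
  unfold R
  exact Finset.le_sup (f := card) (by simp [h, hA])

lemma R_le {n K : ℕ} (h : ∀ A, A ⊆ Icc 1 n → Adm A → A.card ≤ K) : R n ≤ K := by
  unfold R
  refine Finset.sup_le (fun A hA => ?_)
  simp only [Finset.mem_filter, Finset.mem_powerset] at hA
  exact h A hA.1 hA.2

def a (p i : ℕ) : ℕ := 2 * p * i + i ^ 2 % p + 1

lemma step {p i j s : ℕ} (hp : 0 < p) (hs : 0 < s) (h : a p j = a p i + s) :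
    p < s ∧ j = i + (s + p) / (2 * p) ∧ 0 < (s + p) / (2 * p) := by
  unfold a at h
  have h1 := Nat.mod_lt (i ^ 2) hp
  have h2 := Nat.mod_lt (j ^ 2) hp
  have hij : i < j := by
    by_contra hc
    push Not at hc
    rcases hc.lt_or_eq with hc | hc
    · have : 2 * p * (j + 1) ≤ 2 * p * i := Nat.mul_le_mul_left _ hc
      rw [Nat.mul_add] at this; omega
    · subst hc; omega
  obtain ⟨q, rfl⟩ := Nat.exists_eq_add_of_lt hij
  have e : 2 * p * (i + q + 1) = 2 * p * i + 2 * p * q + 2 * p := by ring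
  have hq : (s + p) / (2 * p) = q + 1 := by
    apply Nat.div_eq_of_lt_le
    · have : (q + 1) * (2 * p) = 2 * p * q + 2 * p := by ring
      omega
    · have : (q + 1 + 1) * (2 * p) = 2 * p * q + 2 * p + 2 * p := by ring
      omega
  refine ⟨by omega, by rw [hq]; ring, by omega⟩

lemma cast_a (p i : ℕ) : ((a p i : ℕ) : ZMod p) = (i : ZMod p) ^ 2 + 1 := by
  unfold a; push_cast; simp

lemma a_inj {p : ℕ} (hp : 0 < p) : Function.Injective (a p) := by
  intro i j h
  unfold a at h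
  have h1 := Nat.mod_lt (i ^ 2) hp
  have h2 := Nat.mod_lt (j ^ 2) hp
  rcases lt_trichotomy i j with hc | hc | hc
  · have : 2 * p * (i + 1) ≤ 2 * p * j := Nat.mul_le_mul_left _ hc
    rw [Nat.mul_add] at this; omega
  · exact hc
  · have : 2 * p * (j + 1) ≤ 2 * p * i := Nat.mul_le_mul_left _ hc
    rw [Nat.mul_add] at this; omega

lemma adm {p : ℕ} (hp : p.Prime) (h2 : 2 < p) : Adm ((range (2 * p ^ 2)).image (a p)) := by
  classical
  intro s hs
  have hp0 : 0 < p := hp.pos
  let B := (range (2 * p ^ 2)).filter (fun i => ∃ j, a p j = a p i + s)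
  have hB : nu ((range (2 * p ^ 2)).image (a p)) s ≤ B.card := by
    unfold nu
    refine le_trans (Finset.card_le_card (t := B.image (fun i => (a p i, a p i + s))) ?_)
      Finset.card_image_le
    rintro ⟨x, y⟩ hz
    simp only [Finset.mem_filter, Finset.mem_product, Finset.mem_image] at hz
    obtain ⟨⟨⟨i, hi, rfl⟩, ⟨j, -, rfl⟩⟩, h⟩ := hz
    exact Finset.mem_image.2 ⟨i, Finset.mem_filter.2 ⟨hi, j, h⟩, by rw [h]⟩
  refine le_trans hB ?_
  by_cases hbig : p ^ 2 ≤ s
  · have : B.card ≤ (range (2 * p ^ 2)).card := Finset.card_filter_le _ _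
    rw [Finset.card_range] at this; omega
  rcases B.eq_empty_or_nonempty with he | ⟨i0, hi0⟩
  · rw [he]; simp
  obtain ⟨j0, hj0⟩ := (Finset.mem_filter.1 hi0).2
  obtain ⟨hps, -, hq0⟩ := step hp0 hs hj0
  have hqp : (s + p) / (2 * p) < p := by
    rw [Nat.div_lt_iff_lt_mul (by omega)]; nlinarith
  have : Fact p.Prime := ⟨hp⟩
  have hq : (((s + p) / (2 * p) : ℕ) : ZMod p) ≠ 0 := fun h =>
    absurd (Nat.le_of_dvd hq0 ((ZMod.natCast_eq_zero_iff _ _).1 h)) (by omega)
  have htwo : (2 : ZMod p) ≠ 0 := fun h =>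
    absurd (Nat.le_of_dvd (by norm_num) ((ZMod.natCast_eq_zero_iff 2 p).1 (by exact_mod_cast h)))
      (by omega)
  have key : ∀ i ∈ B, 2 * (((s + p) / (2 * p) : ℕ) : ZMod p) * (i : ZMod p) =
      (s : ZMod p) - (((s + p) / (2 * p) : ℕ) : ZMod p) ^ 2 := by
    intro i hi
    obtain ⟨j, hj⟩ := (Finset.mem_filter.1 hi).2
    obtain ⟨-, hjq, -⟩ := step hp0 hs hj
    have := congrArg (Nat.cast : ℕ → ZMod p) hj
    rw [Nat.cast_add, cast_a, cast_a, hjq, Nat.cast_add] at this
    linear_combination this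
  have hc : B.card ≤ (range (2 * p)).card := by
    apply Finset.card_le_card_of_injOn (fun i => i / p)
    · intro i hi
      have := Finset.mem_range.1 (Finset.mem_filter.1 hi).1
      simp only [Finset.coe_range, Set.mem_Iio]
      rw [Nat.div_lt_iff_lt_mul hp0]; nlinarith
    · intro i hi j hj hij
      have e : (i : ZMod p) = (j : ZMod p) :=
        mul_left_cancel₀ (mul_ne_zero htwo hq) ((key i hi).trans (key j hj).symm)
      have e' : i % p = j % p := (ZMod.natCast_eq_natCast_iff' i j p).1 e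
      have hij' : i / p = j / p := hij
      rw [← Nat.div_add_mod i p, ← Nat.div_add_mod j p, hij', e']
  rw [Finset.card_range] at hc
  omega

lemma low {p n : ℕ} (hp : p.Prime) (h2 : 2 < p) (hn : 4 * p ^ 3 ≤ n) : 2 * p ^ 2 ≤ R n := by
  have := le_R (n := n) (A := (range (2 * p ^ 2)).image (a p)) (by
    intro x hx
    obtain ⟨i, hi, rfl⟩ := Finset.mem_image.1 hx
    have hi' := Finset.mem_range.1 hi
    have h1 := Nat.mod_lt (i ^ 2) hp.pos
    have h3 : 2 * p * (i + 1) ≤ 2 * p * (2 * p ^ 2) := Nat.mul_le_mul_left _ hi'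
    have h4 : 2 * p * (2 * p ^ 2) = 4 * p ^ 3 := by ring
    rw [Nat.mul_add] at h3
    unfold a
    rw [Finset.mem_Icc]; omega) (adm hp h2)
  rwa [Finset.card_image_of_injective _ (a_inj hp.pos), Finset.card_range] at this

lemma up {n L : ℕ} (hL : 0 < L) {A : Finset ℕ} (h : A ⊆ Icc 1 n) (hA : Adm A) :
    A.card ≤ n / L + 1 + L * (2 * L) := by
  classical
  let M := A.filter (fun y => ∀ x ∈ A, x < y → x / L ≠ y / L)
  have hM : M.card ≤ (range (n / L + 1)).card := by
    apply Finset.card_le_card_of_injOn (fun y => y / L)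
    · intro y hy
      have := (Finset.mem_Icc.1 (h (Finset.mem_filter.1 hy).1)).2
      simp only [Finset.coe_range, Set.mem_Iio]
      exact Nat.lt_succ_of_le (Nat.div_le_div_right this)
    · intro x hx y hy hxy
      have hx' := Finset.mem_filter.1 hx
      have hy' := Finset.mem_filter.1 hy
      rcases lt_trichotomy x y with hc | hc | hc
      · exact absurd hxy (hy'.2 x hx'.1 hc)
      · exact hc
      · exact absurd hxy.symm (hx'.2 y hy'.1 hc)
  rw [Finset.card_range] at hM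
  have hsub : A ⊆ M ∪ (range L).biUnion (fun s =>
      ((A ×ˢ A).filter (fun z => z.2 = z.1 + (s + 1))).image Prod.snd) := by
    intro y hy
    by_cases hm : y ∈ M
    · exact Finset.mem_union_left _ hm
    · apply Finset.mem_union_right
      have : ¬ ∀ x ∈ A, x < y → x / L ≠ y / L := fun q => hm (Finset.mem_filter.2 ⟨hy, q⟩)
      push Not at this
      obtain ⟨x, hx, hxy, hd⟩ := this
      have e1 := Nat.div_add_mod x L
      have e2 := Nat.div_add_mod y L
      have e3 := Nat.mod_lt y hL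
      rw [hd] at e1
      refine Finset.mem_biUnion.2 ⟨y - x - 1, Finset.mem_range.2 (by omega),
        Finset.mem_image.2 ⟨(x, y), ?_, rfl⟩⟩
      simp only [Finset.mem_filter, Finset.mem_product]
      exact ⟨⟨hx, hy⟩, by omega⟩
  have h1 := le_trans (Finset.card_le_card hsub) (Finset.card_union_le _ _)
  have h2 : ((range L).biUnion (fun s =>
      ((A ×ˢ A).filter (fun z => z.2 = z.1 + (s + 1))).image Prod.snd)).card ≤
      (range L).card * (2 * L) := by
    apply Finset.card_biUnion_le_card_mul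
    intro s hs
    have h3 : nu A (s + 1) ≤ 2 * (s + 1) := hA _ (Nat.succ_pos s)
    have h4 := Finset.mem_range.1 hs
    refine le_trans Finset.card_image_le (le_trans h3 (by omega))
  rw [Finset.card_range] at h2
  omega

lemma root (K n : ℕ) (hK : 0 < K) : ∃ m, K * m ^ 3 ≤ n ∧ n < K * (m + 1) ^ 3 := by
  induction n with
  | zero => exact ⟨0, by simp, by simpa using hK⟩
  | succ n ih =>
    obtain ⟨m, h1, h2⟩ := ih
    by_cases h : n + 1 < K * (m + 1) ^ 3
    · exact ⟨m, by omega, h⟩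
    · refine ⟨m + 1, by omega, ?_⟩
      have : (m + 1) ^ 3 < (m + 1 + 1) ^ 3 := Nat.pow_lt_pow_left (by omega) (by norm_num)
      have := Nat.mul_lt_mul_of_pos_left this hK
      omega

theorem result :
    (∀ n, 256 ≤ n → n ^ 2 ≤ 128 * R n ^ 3 ∧ R n ^ 3 ≤ 512 * n ^ 2) ∧
    ∀ p : ℕ, p.Prime → 2 < p → 2 * p ^ 2 ≤ R (4 * p ^ 3) := by
  refine ⟨fun n hn => ⟨?_, ?_⟩, fun p hp h2 => low hp h2 le_rfl⟩
  · obtain ⟨m, h1, h2⟩ := root 32 n (by norm_num)
    have hm : 2 ≤ m := by
      by_contra hc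
      have : (m + 1) ^ 3 ≤ 2 ^ 3 := Nat.pow_le_pow_left (by omega) 3
      omega
    obtain ⟨p, hp, h3, h4⟩ := Nat.exists_prime_lt_and_le_two_mul m (by omega)
    have h5 : p ^ 3 ≤ (2 * m) ^ 3 := Nat.pow_le_pow_left h4 3
    have h6 : (m + 1) ^ 3 ≤ p ^ 3 := Nat.pow_le_pow_left h3 3
    have h7 := low (n := n) hp (by omega) (by rw [mul_pow] at h5; omega)
    have h8 : n ^ 2 ≤ (32 * p ^ 3) ^ 2 := Nat.pow_le_pow_left (by omega) 2
    have h9 : (2 * p ^ 2) ^ 3 ≤ R n ^ 3 := Nat.pow_le_pow_left h7 3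
    have e1 : (32 * p ^ 3) ^ 2 = 128 * (2 * p ^ 2) ^ 3 := by ring
    omega
  · obtain ⟨m, h1, h2⟩ := root 1 n (by norm_num)
    rw [one_mul] at h1 h2
    have hm : 5 ≤ m := by
      by_contra hc
      have : (m + 1) ^ 3 ≤ 5 ^ 3 := Nat.pow_le_pow_left (by omega) 3
      omega
    have h3 : R n ≤ n / (m + 1) + 1 + (m + 1) * (2 * (m + 1)) :=
      R_le (fun A h hA => up (Nat.succ_pos m) h hA)
    have h4 : n / (m + 1) < (m + 1) ^ 2 := by
      rw [Nat.div_lt_iff_lt_mul (Nat.succ_pos m)]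
      calc n < (m + 1) ^ 3 := h2
        _ = (m + 1) ^ 2 * (m + 1) := by ring
    have h5 : R n ≤ 8 * m ^ 2 := by nlinarith
    have h6 : R n ^ 3 ≤ (8 * m ^ 2) ^ 3 := Nat.pow_le_pow_left h5 3
    have h7 : (m ^ 3) ^ 2 ≤ n ^ 2 := Nat.pow_le_pow_left h1 2
    have e1 : (8 * m ^ 2) ^ 3 = 512 * (m ^ 3) ^ 2 := by ring
    omega

end Pool.Agent.Results.MP_6a97ae_co.Order
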